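import Pool.Agent.T9h88.IP.Spec
import Pool.Agent.T9h88.IO.Sem
import Pool.Agent.T9h67.IO.Num

/-!
# Derivations for the new symbols
-/

set_option autoImplicit false

namespace Pool.Agent.T9h67.IP

open Pool.Agent.TH672 (Fm Str upd num digits varStr LogK)
open Pool.Agent.TH636.BC
open Pool.Agent.T9h6.BC (sz cl)
open Pool.Agent.T9h88.IO Pool.Agent.T9h88.IP
open Pool.Agent.T9h67.IO

theorem der_mono {Cs : List Cl} {N N' : List At} {L : ℕ} (h : ∀ p ∈ N, p ∈ N') {q : At}
    (hq : Der Cs N L q) : Der Cs N' L q := by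
  induction hq with
  | base ha => exact .base (h _ ha)
  | step ρ hc hρ _ ih => exact .step ρ hc hρ ih

section
variable {P : Fml} {κ : ℕ} {Cs : List Cl} {N : List At} {M : ℕ} (E : Env P κ Cs N M)
include E

theorem qk (c : ℕ) (hc : ∀ a ∈ kCl c, a ∈ Cs) (j : ℕ) (hj : j ≤ c) (h : j ≤ M) :
    Der Cs N N.length (o1 (iK j) j) := by
  induction j with
  | zero =>
    refine stp ⟨[.zero 0], o1 (iK 0) 0⟩ (hc _ (by simp [kCl])) [0] E.qpos ?_ ?_
    · simp only [List.forall_mem_cons]
      exact ⟨E.qpos, by simp⟩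
    · exact List.forall_mem_cons.2 ⟨E.qz, by simp⟩
  | succ j ih =>
    refine stp ⟨[o1 (iK j) 0, .succ 0 1], o1 (iK (j + 1)) 1⟩
      (hc _ ?_) [j, j + 1] E.qpos ?_ ?_
    · refine List.mem_cons_of_mem _ (List.mem_map.2 ⟨j, List.mem_range.2 (by omega), rfl⟩)
    · simp only [List.forall_mem_cons]
      exact ⟨E.qbd (by omega), E.qbd h, by simp⟩
    · exact List.forall_mem_cons.2 ⟨ih (by omega) (by omega),
        List.forall_mem_cons.2 ⟨E.qs h, by simp⟩⟩

omit E in
theorem fI_eq (x a b : ℕ) :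
    fI x a b = app (app (app (app 0 hd) (rep a)) (tlx x)) (digits b) := by
  rw [app_app, app_app, app_app, app, digits_zero, List.nil_append, fI]
  simp only [List.append_assoc]

omit E in
theorem le_fI (x a b : ℕ) : b ≤ fI x a b := by
  have := num_le_append' (hd ++ rep a ++ tlx x) (digits b)
  rwa [num_digits] at this

omit E in
theorem le_fI' (x a b : ℕ) : a ≤ fI x a b := by
  rw [fI_eq]
  exact le_trans (le_trans (le_trans (le_length_rep a) (length_le_app _ _)) (le_app _ _))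
    (le_app _ _)

theorem qfI (x ix : ℕ) (hc : (⟨[.zero 0, o2 (iApp hd) 0 1, o3 iRep 2 1 3, o2 (iApp (tlx x)) 3 4,
      o3 iCat 4 5 6], o3 ix 2 5 6⟩ : Cl) ∈ Cs) (hx : ∀ c ∈ appCl (tlx x), c ∈ Cs) (a b : ℕ)
    (h : fI x a b ≤ M) : Der Cs N N.length (o3 ix a b (fI x a b)) := by
  have ha := le_trans (le_fI' x a b) h
  have hb := le_trans (le_fI x a b) h
  rw [fI_eq] at h ⊢
  have h1 := le_trans (le_app _ _) h
  have h2 := le_trans (le_app _ _) h1
  have h3 := le_trans (le_app _ _) h2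
  have p1 := E.fapp hd (mem_app E.cls (by simp)) 0 h3
  have p2 := E.qrep a _ h2
  have p3 := E.fapp (tlx x) hx _ h1
  have p4 := E.qcat b _ h
  refine stp _ hc [0, app 0 hd, a, app (app 0 hd) (rep a), app (app (app 0 hd) (rep a)) (tlx x),
    b, app (app (app (app 0 hd) (rep a)) (tlx x)) (digits b)] E.qpos ?_ ?_
  · simp only [List.forall_mem_cons]
    exact ⟨E.qpos, E.qbd h3, E.qbd ha, E.qbd h2, E.qbd h1, E.qbd hb, E.qbd h, by simp⟩
  · exact List.forall_mem_cons.2 ⟨E.qz, List.forall_mem_cons.2 ⟨p1, List.forall_mem_cons.2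
      ⟨p2, List.forall_mem_cons.2 ⟨p3, List.forall_mem_cons.2 ⟨p4, by simp⟩⟩⟩⟩⟩

end

theorem strs_cons' (φ : Fml) (Γ : List Fml) : strs (φ :: Γ) = str φ ++ strs Γ := by
  simp [strs]

theorem gd_nil (P : Fml) (L w₀ l : ℕ) :
    gd P L w₀ l [] = fI 26 l (app (app 0 (str (JJ P L))) (digits w₀)) := by
  rw [gd, List.map_nil, List.nil_append, strs_cons', Jl, str_inst', fI, app_app, app, digits_zero,
    List.nil_append, Pool.Agent.T9h67.IO.digits_num]
  simp [strs]

theorem gd_cons (P : Fml) (L w₀ l : ℕ) (e : Ent) (ρ : List Ent) :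
    gd P L w₀ l (e :: ρ) = fI 29 e.z (fI 28 e.m (fI 27 e.v (fI 26 e.i
      (app (app 0 (str θ1)) (digits (gd P L w₀ l ρ)))))) := by
  simp only [gd, List.map_cons, List.cons_append, strs_cons', Ent.ax, tr, str_inst', fI, app_app,
    app, digits_zero, List.nil_append, Pool.Agent.T9h67.IO.digits_num, List.append_assoc]

/-- (W8) facts -/
theorem w8 : W8 := by
  intro hS _ P κ b L Cs N N' ν M K hCs hctx hN
  have hB : ∀ c ∈ clsB P κ, c ∈ Cs := fun c hc => hCs c (List.mem_append_left _ hc)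
  have h3 : ∀ c ∈ cl3 P b L, c ∈ Cs := fun c hc => hCs c (List.mem_append_right _ hc)
  have hkb : ∀ c ∈ kCl b, c ∈ Cs := by
    intro c hc
    refine h3 c ?_
    simp only [cl3, List.mem_append]
    tauto
  have hkL : ∀ c ∈ kCl L, c ∈ Cs := by
    intro c hc
    refine h3 c ?_
    simp only [cl3, List.mem_append]
    tauto
  have hap : ∀ τ ∈ [str (JJ P L), tlx 26, tlx 27, tlx 28, str θ1], ∀ c ∈ appCl τ, c ∈ Cs := by
    intro τ hτ c hc
    refine h3 c ?_
    have : c ∈ [str (JJ P L), tlx 26, tlx 27, tlx 28, str θ1].flatMap appCl :=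
      List.mem_flatMap.2 ⟨τ, hτ, hc⟩
    simp only [cl3, List.mem_append]
    tauto
  obtain ⟨a1, a2, a3, a4, -⟩ := hS P κ Cs N ν M K hB hctx
  have E : Env P κ Cs N M := ⟨hB, hctx.zero, hctx.succ, hctx.numlt, a1, a2, a3, a4⟩
  refine ⟨?_, ?_, ?_, ?_⟩
  · intro j i h
    have e1 := le_tw (b + i + 1) j
    have e2 : tw j (b + i) ≤ M := le_trans (tw_mono j (by omega)) h
    refine stp ⟨[o1 (iK b) 0, .add 0 1 2, .succ 2 3, o3 iIt 4 3 5, o3 iIt 4 2 6], o3 iPG 1 5 6⟩
      (h3 _ (by simp [cl3])) [b, i, b + i, b + i + 1, j, tw j (b + i + 1), tw j (b + i)]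
      E.qpos ?_ ?_
    · simp only [List.forall_mem_cons]
      exact ⟨E.qbd (by omega), E.qbd (by omega), E.qbd (by omega), E.qbd (by omega),
        E.qbd (by omega), E.qbd h, E.qbd e2, by simp⟩
    · exact List.forall_mem_cons.2 ⟨der_mono hN (qk E b hkb b le_rfl (by omega)),
        List.forall_mem_cons.2 ⟨der_mono hN (E.fadd b i (by omega)),
        List.forall_mem_cons.2 ⟨der_mono hN (E.qs (i := b + i) (by omega)),
        List.forall_mem_cons.2 ⟨der_mono hN (E.qit _ j h),
        List.forall_mem_cons.2 ⟨der_mono hN (E.qit _ j e2), by simp⟩⟩⟩⟩⟩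
  · intro j i h
    have e1 := le_tw (b + i + 1) (j + 1)
    have e2 : tw j (b + i + 1) ≤ M := by
      rw [tw_succ] at h
      exact le_trans (Nat.lt_two_pow_self).le h
    refine stp ⟨[o1 (iK b) 0, .add 0 1 2, .succ 2 3, o3 iIt 4 3 5, .succ 4 6, o3 iIt 6 3 7],
      o3 iPS 1 5 7⟩
      (h3 _ (by simp [cl3])) [b, i, b + i, b + i + 1, j, tw j (b + i + 1), j + 1,
        tw (j + 1) (b + i + 1)] E.qpos ?_ ?_
    · simp only [List.forall_mem_cons]
      exact ⟨E.qbd (by omega), E.qbd (by omega), E.qbd (by omega), E.qbd (by omega),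
        E.qbd (by omega), E.qbd e2, E.qbd (by omega), E.qbd h, by simp⟩
    · exact List.forall_mem_cons.2 ⟨der_mono hN (qk E b hkb b le_rfl (by omega)),
        List.forall_mem_cons.2 ⟨der_mono hN (E.fadd b i (by omega)),
        List.forall_mem_cons.2 ⟨der_mono hN (E.qs (i := b + i) (by omega)),
        List.forall_mem_cons.2 ⟨der_mono hN (E.qit _ j e2),
        List.forall_mem_cons.2 ⟨der_mono hN (E.qs (i := j) (by omega)),
        List.forall_mem_cons.2 ⟨der_mono hN (E.qit _ (j + 1) h), by simp⟩⟩⟩⟩⟩⟩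
  · intro w₀ l ρ
    induction ρ with
    | nil =>
      intro h hw _
      rw [gd_nil] at h ⊢
      have hl := le_trans (le_fI' _ _ _) h
      have h1 := le_trans (le_fI _ _ _) h
      have h2 := le_trans (le_app _ _) h1
      have hw' : w₀ ≤ M := by
        refine le_trans ?_ h1
        have := num_le_append' (digits (app 0 (str (JJ P L)))) (digits w₀)
        rwa [num_digits] at this
      have p1 := E.fapp (str (JJ P L)) (hap _ (by simp)) 0 h2
      have p2 := E.qcat w₀ _ h1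
      have p3 := qfI E 26 iI26 (h3 _ (by simp [cl3])) (hap _ (by simp)) l _ h
      refine stp ⟨[o1 iGB 0, .zero 1, o2 (iApp (str (JJ P L))) 1 2, o3 iCat 2 0 3, o3 iI26 4 3 5],
        o2 iGd 4 5⟩ (h3 _ (by simp [cl3])) [w₀, 0, app 0 (str (JJ P L)),
          app (app 0 (str (JJ P L))) (digits w₀), l,
          fI 26 l (app (app 0 (str (JJ P L))) (digits w₀))] E.qpos ?_ ?_
      · simp only [List.forall_mem_cons]
        exact ⟨E.qbd hw', E.qpos, E.qbd h2, E.qbd h1, E.qbd hl, E.qbd h, by simp⟩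
      · exact List.forall_mem_cons.2 ⟨.base hw, List.forall_mem_cons.2 ⟨der_mono hN E.qz,
          List.forall_mem_cons.2 ⟨der_mono hN p1, List.forall_mem_cons.2 ⟨der_mono hN p2,
          List.forall_mem_cons.2 ⟨der_mono hN p3, by simp⟩⟩⟩⟩⟩
    | cons e ρ ih =>
      intro h hw hρ
      rw [gd_cons] at h ⊢
      have b1 := le_trans (le_fI _ _ _) h
      have b2 := le_trans (le_fI _ _ _) b1
      have b3 := le_trans (le_fI _ _ _) b2
      have b4 := le_trans (le_fI _ _ _) b3
      have b5 := le_trans (le_app _ _) b4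
      have c1 := le_trans (le_fI' _ _ _) h
      have c2 := le_trans (le_fI' _ _ _) b1
      have c3 := le_trans (le_fI' _ _ _) b2
      have c4 := le_trans (le_fI' _ _ _) b3
      have hg : gd P L w₀ l ρ ≤ M := by
        refine le_trans ?_ b4
        have := num_le_append' (digits (app 0 (str θ1))) (digits (gd P L w₀ l ρ))
        rwa [num_digits] at this
      have hl : l ≤ M := by
        refine le_trans ?_ hg
        clear * -
        induction ρ with
        | nil =>
          rw [gd_nil]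
          exact le_fI' _ _ _
        | cons e ρ ih =>
          rw [gd_cons]
          refine le_trans ih (le_trans ?_ (le_trans (le_fI _ _ _) (le_trans (le_fI _ _ _)
            (le_trans (le_fI _ _ _) (le_fI _ _ _)))))
          have := num_le_append' (digits (app 0 (str θ1))) (digits (gd P L w₀ l ρ))
          rwa [num_digits] at this
      have q0 := ih hg hw (fun e' he' => hρ e' (List.mem_cons_of_mem _ he'))
      have q1 : Der Cs N' N.length (o3 iTr e.v e.i e.z) := .base (hρ e List.mem_cons_self)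
      have p1 := E.fapp (str θ1) (hap _ (by simp)) 0 b5
      have p2 := E.qcat (gd P L w₀ l ρ) _ b4
      have p3 := qfI E 26 iI26 (h3 _ (by simp [cl3])) (hap _ (by simp)) e.i _ b3
      have p4 := qfI E 27 iI27 (h3 _ (by simp [cl3])) (hap _ (by simp)) e.v _ b2
      have p5 := qfI E 28 iI28 (h3 _ (by simp [cl3])) (hap _ (by simp)) e.m _ b1
      have p6 := qfI E 29 iI29 (h3 _ (by simp [cl3])) (mem_app hB (by simp)) e.z _ h
      refine stp ⟨[o2 iGd 0 1, o3 iTr 2 3 4, .zero 5, o2 (iApp (str θ1)) 5 6, o3 iCat 6 1 7,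
        o3 iI26 3 7 8, o3 iI27 2 8 9, o3 iI28 10 9 11, o3 iI29 4 11 12], o2 iGd 0 12⟩
        (h3 _ (by simp [cl3])) [l, gd P L w₀ l ρ, e.v, e.i, e.z, 0, app 0 (str θ1),
          app (app 0 (str θ1)) (digits (gd P L w₀ l ρ)),
          fI 26 e.i (app (app 0 (str θ1)) (digits (gd P L w₀ l ρ))),
          fI 27 e.v (fI 26 e.i (app (app 0 (str θ1)) (digits (gd P L w₀ l ρ)))), e.m,
          fI 28 e.m (fI 27 e.v (fI 26 e.i (app (app 0 (str θ1)) (digits (gd P L w₀ l ρ))))),
          fI 29 e.z (fI 28 e.m (fI 27 e.v (fI 26 e.i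
            (app (app 0 (str θ1)) (digits (gd P L w₀ l ρ))))))] E.qpos ?_ ?_
      · simp only [List.forall_mem_cons]
        exact ⟨E.qbd hl, E.qbd hg, E.qbd c3, E.qbd c4, E.qbd c1, E.qpos, E.qbd b5, E.qbd b4,
          E.qbd b3, E.qbd b2, E.qbd c2, E.qbd b1, E.qbd h, by simp⟩
      · exact List.forall_mem_cons.2 ⟨q0, List.forall_mem_cons.2 ⟨q1,
          List.forall_mem_cons.2 ⟨der_mono hN E.qz, List.forall_mem_cons.2 ⟨der_mono hN p1,
          List.forall_mem_cons.2 ⟨der_mono hN p2, List.forall_mem_cons.2 ⟨der_mono hN p3,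
          List.forall_mem_cons.2 ⟨der_mono hN p4, List.forall_mem_cons.2 ⟨der_mono hN p5,
          List.forall_mem_cons.2 ⟨der_mono hN p6, by simp⟩⟩⟩⟩⟩⟩⟩⟩⟩
  · intro h
    exact der_mono hN (qk E L hkL L le_rfl h)

end Pool.Agent.T9h67.IP
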