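import Pool.Agent.T9h88.IP.Spec
import Pool.Agent.T9h88.IO.Sem

/-!
# The next axiom `Jl`
-/

set_option autoImplicit false

namespace Pool.Agent.T9h67.IP

open Pool.Agent.TH672 (Fm Str upd num digits varStr LogK upd_same upd_ne upd_self)
open Pool.Agent.TH636.BC
open Pool.Agent.T9h6.BC (sz cl)
open Pool.Agent.TH838.J1549 (sat_cong sat_inst free_inst Q exists_Q)
open Pool.Agent.T9h88.IO Pool.Agent.T9h88.IP

theorem sat_of_cl {S : Str ℕ} {φ : Fml} : ∀ n : ℕ,
    (∀ v : ℕ → S.M, Fm.Sat S (cl φ n) v) → ∀ v : ℕ → S.M, Fm.Sat S φ v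
  | 0, h => h
  | n + 1, h => sat_of_cl n fun v => by
      have h1 : ∀ a, Fm.Sat S (cl φ n) (upd v n a) := h v
      have := h1 (v n)
      rwa [upd_self] at this

theorem free_JJ {P : Fml} (hP : Numerates P) {L x : ℕ} (h : (JJ P L).Free x) : x = 26 := by
  simp only [JJ, Fm.Free, At.fm] at h
  obtain ⟨h2, h3, h4, h⟩ := h
  rcases h with h | h | h | h | ⟨h5, h⟩
  · omega
  · omega
  · omega
  · omega
  · have := free_off hP h
    omega

/-- (W9) -/
theorem w9 : W9 := by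
  intro h3 A₀ P κ b L l ρ hA hP
  obtain ⟨-, hcl, -⟩ := h3 A₀ P κ b L hA hP
  refine Proves.of_valid (hcl l ρ) fun S hS v => ?_
  have hbase : ∀ ψ ∈ base' A₀ P κ b L, ψ ∈ UU A₀ P κ b L l ρ := fun ψ hψ => by
    simp only [UU, base, List.mem_append, List.mem_cons]
    exact .inr (.inr (.inr hψ))
  obtain ⟨q⟩ := exists_Q v fun ψ hψ => hS ψ (hbase ψ (by
    simp only [base', List.mem_append]
    exact .inr (.inl (.inl hψ)))) v
  have hj := hS (Jl P L l) (by simp [UU]) v
  obtain ⟨c, hc⟩ : ∃ c : Cl, c = ⟨[.succ 0 1, o2 iLt 1 2], o2 iLt 0 2⟩ := ⟨_, rfl⟩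
  have hcm : c.fm ∈ base' A₀ P κ b L := by
    simp only [base', List.mem_append, List.mem_cons]
    refine .inr (.inr (.inr (.inr (List.mem_map.2 ⟨c, ?_, rfl⟩))))
    rw [cls3, List.mem_append]
    right
    rw [hc]
    simp [cl3]
  have hb := sat_of_cl VB (hS c.fm (hbase _ hcm))
  have hlt : ∀ x y z : S.M, S.succ x y → S.op iLt y z z z → S.op iLt x z z z := by
    intro x y z h1 h2
    have h4 := hb (upd (upd (upd v 0 x) 1 y) 2 z)
    rw [hc] at h4
    simp only [Cl.body, List.foldr, At.fm, Fm.sat_imp, Fm.sat_op, Fm.sat_succ] at h4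
    simp only [upd] at h4
    exact h4 (by simpa using h1) (by simpa using h2)
  have hf0 : ¬ (JJ P L).Free 0 := fun h => by have := free_JJ hP h; omega
  have hf1 : ¬ (JJ P L).Free 1 := fun h => by have := free_JJ hP h; omega
  rw [Jl, sat_inst q (by omega) hf0 hf1] at hj ⊢
  simp only [JJ, Fm.sat_all, Fm.sat_imp, At.fm, Fm.sat_op] at hj ⊢
  intro x y z h1 h2 h4 h5 t
  refine (sat_cong fun w hw => ?_).1 (hj x y z ?_ ?_ ?_ ?_ t)
  · rcases free_off hP hw with rfl | rfl <;> simp [upd]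
  · simpa [upd] using h1
  · have h6 : S.succ (q.nm l) (q.nm (l + 1)) := (q.succ_iff _ _).2 rfl
    refine hlt _ (q.nm (l + 1)) _ ?_ ?_
    · simpa [upd] using h6
    · simpa [upd] using h2
  · simpa [upd] using h4
  · simpa [upd] using h5

end Pool.Agent.T9h67.IP
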